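import Pool.Agent.N754.GF.Stm
import Pool.Agent.N717.FV.WR

/-! The inequality for Wronskians of functions with common zeros (project GF of helper754). -/

set_option autoImplicit false

open FF Pool.Agent.W603.LV

namespace Pool.Agent.N543.GF

open Pool.Agent.N717.FV (wr_lin wr_in wr_out)

/-- The order of a Wronskian of functions with a common zero at a place. -/
theorem wr_zero {k K : Type*} [Field k] [Field K] [Algebra k K] [CharZero k] [IsFF k K]
    [IsAlgClosed k] (P : Place k K) {D : Derivation k K K} (hD : D ≠ 0) {N : ℕ} (f : Fin N → K)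
    (hf : ∀ a, Ge P 1 (f a)) (hW : wr D f ≠ 0) : tri N * vo P D + N ≤ P.ord (wr D f) := by
  obtain ⟨π, hπd⟩ : ∃ π, π = unif P := ⟨_, rfl⟩
  have hπ : P.ord π = 1 := hπd ▸ ord_unif P
  have hπ0 : π ≠ 0 := by
    rintro rfl
    rw [P.ord_zero] at hπ
    exact absurd hπ (by norm_num)
  obtain ⟨g, hg⟩ : ∃ g : Fin N → K, ∀ a, f a = π * g a :=
    ⟨fun a => π⁻¹ * f a, fun a => by rw [← mul_assoc, mul_inv_cancel₀ hπ0, one_mul]⟩
  have hf' : f = fun a => π * g a := funext hg
  have h1 : wr D f = π ^ N * wr D g := by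
    have h3 := wr_change D 1 π g
    rw [one_smul] at h3
    rw [hf', h3]
    simp
  have hg0 : wr D g ≠ 0 := by
    intro h
    rw [h, mul_zero] at h1
    exact hW h1
  have h2 := wr_out P hD g (fun a => by
    have h3 := hf a
    rw [hg a] at h3
    exact Ge.of_mul' hπ0 hπ (by simpa using h3)) hg0
  rw [h1, P.ord_mul (pow_ne_zero _ hπ0) hg0, P.ord_pow, hπ]
  linarith

theorem wr2 : Pool.Agent.N754.GF.WR2 := by
  intro k K _ _ _ _ _ _ S Z N κ B hdis hreg hz hli hspan s
  classical
  obtain ⟨P0, -⟩ := exists_place_not_mem (k := k) (K := K) (∅ : Finset (Place k K))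
  obtain ⟨c0, hc0⟩ : ∃ c0, c0 = s P0 := ⟨_, rfl⟩
  obtain ⟨D, hD⟩ : ∃ D : Derivation k K K, D ≠ 0 := ⟨der k K, der_ne⟩
  have hW : ∀ c, Pool.Agent.W603.LV.wr D (B c) ≠ 0 := fun c => wr_ne_zero hD _ (hli c)
  have hord : ∀ c (P : Place k K), P.ord (Pool.Agent.W603.LV.wr D (B c)) =
      P.ord (Pool.Agent.W603.LV.wr D (B c0)) := by
    intro c P
    obtain ⟨d, hd⟩ := wr_lin D (B c0) (B c) (fun a => by
      rw [hspan c0 c]
      exact Submodule.subset_span ⟨a, rfl⟩)
    have hd0 : d ≠ 0 := by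
      rintro rfl
      rw [map_zero, zero_mul] at hd
      exact hW c hd
    rw [hd, P.ord_mul (by rw [Ne, map_eq_zero]; exact hd0) (hW c0), P.ord_const hd0, zero_add]
  obtain ⟨T1, hT1⟩ := exists_supp (k := k) (Finset.univ : Finset (Fin 1))
    ![Pool.Agent.W603.LV.wr D (B c0)]
  obtain ⟨T, hT⟩ : ∃ T, T = S ∪ Z ∪ T1 ∪ (vo_finite hD).toFinset := ⟨_, rfl⟩
  have hST : S ⊆ T := by
    intro P hP
    rw [hT, Finset.mem_union, Finset.mem_union, Finset.mem_union]
    exact Or.inl (Or.inl (Or.inl hP))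
  have hZT : Z ⊆ T := by
    intro P hP
    rw [hT, Finset.mem_union, Finset.mem_union, Finset.mem_union]
    exact Or.inl (Or.inl (Or.inr hP))
  have e1 : ∑ P ∈ T, P.ord (Pool.Agent.W603.LV.wr D (B c0)) = 0 := by
    refine sum_ord_finset _ T fun P hP => ?_
    rw [hT, Finset.mem_union, Finset.mem_union]
    exact Or.inl (Or.inr (hT1 0 (Finset.mem_univ _) P hP))
  have e2 : ∑ P ∈ T, vo P D = - canDeg k K := by
    refine canDeg_finset hD T fun P hP => ?_
    rw [hT, Finset.mem_union]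
    right
    rw [Set.Finite.mem_toFinset]
    exact hP
  have h3 : ∑ P ∈ T, (tri N * vo P D + (if P ∈ S then (∑ a, P.ord (B (s P) a) - tri N) else 0) +
      (if P ∈ Z then (N : ℤ) else 0)) ≤
      ∑ P ∈ T, P.ord (Pool.Agent.W603.LV.wr D (B c0)) := by
    refine Finset.sum_le_sum fun P _ => ?_
    by_cases h : P ∈ S
    · have hPZ : P ∉ Z := Finset.disjoint_left.1 hdis h
      rw [if_pos h, if_neg hPZ]
      have := wr_in P hD (B (s P)) (hW _)
      rw [hord] at this
      linarith
    · rw [if_neg h]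
      by_cases h' : P ∈ Z
      · rw [if_pos h']
        have := wr_zero P hD (B c0) (fun a => hz c0 a P h') (hW _)
        linarith
      · rw [if_neg h']
        have := wr_out P hD (B c0) (fun a => hreg c0 a P h) (hW _)
        linarith
  rw [e1, Finset.sum_add_distrib, Finset.sum_add_distrib, ← Finset.mul_sum, e2,
    Finset.sum_ite_mem, Finset.inter_eq_right.2 hST, Finset.sum_ite_mem,
    Finset.inter_eq_right.2 hZT, Finset.sum_sub_distrib, Finset.sum_const, Finset.sum_const,
    nsmul_eq_mul, nsmul_eq_mul] at h3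
  unfold euler
  rw [mul_add]
  linarith

end Pool.Agent.N543.GF
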